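import Pool.Agent.H43.DPC.Targets

/-! CON: convolutions of Schwartz functions. -/

set_option autoImplicit false

open MeasureTheory SchwartzMap Filter Topology
open scoped ENNReal ContDiff

namespace Pool.Agent.H38.DPC

open Pool.Agent.H43.DPC

theorem CON : T_CON := by
  intro d f g
  refine ⟨SchwartzMap.postcompCLM Complex.reCLM
    (SchwartzMap.convolution (ContinuousLinearMap.mul ℂ ℂ)
      (SchwartzMap.postcompCLM Complex.ofRealCLM f)
      (SchwartzMap.postcompCLM Complex.ofRealCLM g)), fun x => ?_⟩
  rw [SchwartzMap.postcompCLM_apply, SchwartzMap.convolution_apply, MeasureTheory.convolution_def]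
  have h : ∀ y : V d, (ContinuousLinearMap.mul ℂ ℂ)
      (SchwartzMap.postcompCLM Complex.ofRealCLM f y)
      (SchwartzMap.postcompCLM Complex.ofRealCLM g (x - y)) = ((f y * g (x - y) : ℝ) : ℂ) := by
    intro y
    rw [SchwartzMap.postcompCLM_apply, SchwartzMap.postcompCLM_apply]
    simp
  simp_rw [h]
  rw [integral_complex_ofReal]
  simp

end Pool.Agent.H38.DPC
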