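import Pool.Agent.H43.DPC.Targets

/-! ZER: odd `n`, `n = 0`, negative part. -/

set_option autoImplicit false

open MeasureTheory SchwartzMap Filter Topology
open scoped ENNReal ContDiff

namespace Pool.Agent.H38.DPC

open Pool.Agent.H43.DPC

theorem ZER_diag (d : ℕ) : Diag d 0 = ∅ := by
  ext x
  simp only [Diag, Set.mem_ofPred_eq, Set.mem_empty_iff_false, iff_false]
  rintro ⟨i, -⟩
  exact i.elim0

theorem ZER_vol (d : ℕ) : (volume : Measure (Fin 0 → V d)) = Measure.dirac isEmptyElim :=
  Measure.volume_pi_eq_dirac _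

theorem ZER_mom (d : ℕ) (μ : Measure (SD d)) [IsProbabilityMeasure μ] (f : Fin 0 → S d) :
    moment μ f = 1 := by
  simp [moment]

theorem ZER_int (d : ℕ) (c : ℝ) : ∫ _x : Fin 0 → V d in (Diag d 0)ᶜ, c = c := by
  rw [ZER_diag, Set.compl_empty, Measure.restrict_univ, ZER_vol, integral_dirac]

theorem ZER (hINV : T_INV) : T_ZER := by
  refine ⟨?_, ?_, ?_, ?_⟩
  · intro d μ _ hμ n hn
    refine ⟨⟨contDiffOn_const, fun f _ _ => ?_⟩, locallyIntegrable_zero, fun f => ⟨?_, ?_⟩⟩
    · rw [hINV.moment_odd d μ hμ n hn f]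
      simp
    · simp
    · rw [hINV.moment_odd d μ hμ n hn f]
      simp
  · intro d μ _
    haveI : IsFiniteMeasure (volume : Measure (Fin 0 → V d)) := by
      rw [ZER_vol]; infer_instance
    refine ⟨⟨contDiffOn_const, fun f _ _ => ?_⟩, locallyIntegrable_const 1, fun f => ⟨?_, ?_⟩⟩
    · rw [ZER_mom]
      simp only [Finset.univ_eq_empty, Finset.prod_empty, mul_one]
      rw [ZER_int]
    · simp only [Finset.univ_eq_empty, Finset.prod_empty, mul_one]
      exact (integrable_const (1 : ℝ)).integrableOn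
    · rw [ZER_mom]
      simp only [Finset.univ_eq_empty, Finset.prod_empty, mul_one]
      rw [ZER_int]
  · intro d μ _ s hs
    haveI : IsFiniteMeasure (volume : Measure (Fin 0 → V d)) := by
      rw [ZER_vol]; infer_instance
    have hc : s = fun _ => s isEmptyElim := by
      funext x
      rw [Subsingleton.elim x isEmptyElim]
    refine ⟨?_, fun f => ⟨?_, ?_⟩⟩
    · rw [hc]
      exact locallyIntegrable_const _
    · rw [hc]
      simp only [Finset.univ_eq_empty, Finset.prod_empty, mul_one]
      exact (integrable_const _).integrableOn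
    · exact hs.eq f (fun i => i.elim0) (fun i => i.elim0)
  · intro d n s hs x
    obtain ⟨u, hu, h⟩ := hs x
    exact ⟨u, hu, Integrable.neg_part h⟩

end Pool.Agent.H38.DPC
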